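import Pool.Agent.Results.MP_83e36b_nt.RandomProductsWeakApproximation
import Pool.Agent.Q319.WN.Multi

/-!
# Weak approximation for ALL rationally connected hypersurfaces in products of projective spaces near the multiples and the
dilates of almost every real one

Let `n i ≥ 1`, `d i ≥ 2` (`i < k`) with `d i ≤ n i` for at least one `i` and `∑ n i ≥ 3`, i.e. the smooth hypersurfaces of
multidegree `(d 0, d 1, …)` in `ℙ^(n 0) × ℙ^(n 1) × …` are rationally connected of dimension at least two. We consider
integral multihomogeneous forms whose coefficients are close to those of the multiples `l F` or of the dilates `v_l F` of a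
real form `F`. A form `f` is good at the level `m` if `f = 0` is not everywhere locally soluble or if weak approximation to
precision `1 / (m + 1)` at the real place and at the primes up to `m + 1` holds.

1. For all real `F` with coefficients at most `Y` outside a set of measure at most `ε Y ^ M` (`M` the number of
   coefficients) and 100% of the `l ≤ R` ALL integral forms whose coefficients are within `w` of those of `l F` are good at
   the level `m` (`Y` large in terms of `ε`, `w` and `m`; every `R`).
2. For every sequence `v_l → ∞` and almost every real `F` ALL integral forms within `w` of `v_l F` are good at the level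
   `m`, for 100% of the `l < K_j`, for a sequence `K_j → ∞` which does not depend on `F`, `w` and `m`.
3. If `v_l` increases fast enough then for almost every real `F` and all large `l` ALL integral forms whose coefficients
   are within `l` of those of `v_l F` are good at all levels `m ≤ l`.

From Mathlib: `volume`: the Lebesgue measure; `MvPolynomial`. The statement for 100% of the hypersurfaces is from the
starting file `RandomProductsWeakApproximation` (with the definitions of `LocallySoluble`, `WeakApproximation`). `poly`,
`multi` are defined in `Pool.Agent.Q319.WN.Form`, `Pool.Agent.Q319.WN.Multi`; `MultiplesVec`, `DilatesVec`,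
`FastDilatesVec` in `Pool.Agent.Q319.WN.Vec`.
-/

set_option autoImplicit false

namespace Pool.Agent.Results.MP_83e36b_nt.FormsNearRealForms

open Filter Topology Pool.Agent.Q319.WN Pool.Agent.Results.MP_83e36b_nt.RandomProductsWeakApproximation

/-- `f = 0` is an everywhere locally soluble hypersurface for which weak approximation to precision `1 / (m + 1)` at the
real place and the primes up to `m + 1` fails. -/
def Fails {k : ℕ} {n : Fin k → ℕ} (m : ℕ) (f : MvPolynomial (Σ i : Fin k, Fin (n i + 1)) ℤ) : Prop :=
  LocallySoluble f ∧ ¬ WeakApproximation (m + 1) f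

lemma wa_mono {k : ℕ} {n : Fin k → ℕ} (M m : ℕ) (f : MvPolynomial (Σ i : Fin k, Fin (n i + 1)) ℤ) (hM : 1 ≤ M)
    (hm : M ≤ m) (h : WeakApproximation m f) : WeakApproximation M f := by
  intro z y hz hy
  obtain ⟨x, hx0, hx1, hx2⟩ := h z y hz hy
  have h0 : (0 : ℝ) < M := by exact_mod_cast hM
  have h1 : (M : ℝ) ≤ m := by exact_mod_cast hm
  refine ⟨x, hx0, fun p _ hp i => ?_, fun i => ?_⟩
  · obtain ⟨c, hc, hc1⟩ := hx1 p (hp.trans hm) i
    exact ⟨c, hc, fun j => (hc1 j).trans (div_le_div_of_nonneg_left (norm_nonneg _) h0 h1)⟩
  · obtain ⟨c, hc, hc1⟩ := hx2 i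
    exact ⟨c, hc, fun j => (hc1 j).trans (div_le_div_of_nonneg_left (norm_nonneg _) h0 h1)⟩

lemma fails_null {k : ℕ} (n d : Fin k → ℕ) (hn : ∀ i, 1 ≤ n i) (hd : ∀ i, 2 ≤ d i)
    (hrc : ∃ i, d i ≤ n i) (hdim : 3 ≤ ∑ i, n i) (M : ℕ) :
    NullBox (fun x : ↥(multi n d) → ℤ => Fails M (poly (multi n d) x)) := by
  obtain ⟨m, hm, h⟩ := RandomProductsWeakApproximation.result k n d hn hd hrc hdim
  have e0 : ∀ H, Forms n d H = {f : MvPolynomial (Σ i : Fin k, Fin (n i + 1)) ℤ | f.support ⊆ multi n d ∧
      ∀ m, |f.coeff m| ≤ (H : ℤ)} := by
    intro H
    ext f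
    simp only [Forms, Set.mem_ofPred_eq, multi_iff]
  refine null_poly (multi n d) (fun f => LocallySoluble f) (fun f => WeakApproximation (M + 1) f) ?_
  refine ratio_level _ (box_poly_finite _) _ (fun m f => WeakApproximation m f) wa_mono m hm ?_ (M + 1) (by omega)
  refine h.congr fun H => ?_
  simp only [e0]

/-- Let `n i ≥ 1`, `d i ≥ 2`, `d i ≤ n i` for at least one `i`, `∑ n i ≥ 3`. For integral forms of multidegree `d` in the
blocks of `n i + 1` variables the failure of weak approximation to precision `1 / (m + 1)` at the real place and the primes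
up to `m + 1` (`Fails m`) is
1. rare at the multiples of almost every real form `F`,
2. rare at the dilates `v l F`, for every sequence `v l → ∞` and almost every `F`,
3. absent within the distance `l` of `v l F` and for `m ≤ l`, for all large `l`, for every fast sequence `v l` and almost
   every `F` (see `MultiplesVec`, `DilatesVec` and `FastDilatesVec` for the precise statements). -/
theorem result (k : ℕ) (n d : Fin k → ℕ) (hn : ∀ i, 1 ≤ n i) (hd : ∀ i, 2 ≤ d i)
    (hrc : ∃ i, d i ≤ n i) (hdim : 3 ≤ ∑ i, n i) :
    (∀ m, MultiplesVec (fun x : ↥(multi n d) → ℤ => Fails m (poly (multi n d) x))) ∧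
      DilatesVec (fun m (x : ↥(multi n d) → ℤ) => Fails m (poly (multi n d) x)) ∧
      FastDilatesVec (fun m (x : ↥(multi n d) → ℤ) => Fails m (poly (multi n d) x)) :=
  null_all fun m => fails_null n d hn hd hrc hdim m

end Pool.Agent.Results.MP_83e36b_nt.FormsNearRealForms
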