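import Pool.Agent.Results.MP_83e36b_nt.ShiftedWithBrauerClass
import Pool.Agent.Q319.WN.One

/-!
# Weak approximation for ALL the surfaces `y² - a z² = b t (f(t) + k)`, `k` near the multiples or the dilates of almost every
real number

Let `f` be an integral polynomial of degree `d ≥ 1` and let `a`, `b` be nonzero integers. A smooth proper model of the surface
`W_k : y² - a z² = b t (f(t) + k) ≠ 0` is a conic bundle; if `d` is even then the quaternion algebra `(a, t)` is unramified
on it. For almost all real numbers `y` of size `N ^ (1 - θ)` (the exceptional set has a measure `N ^ (1 - θ - c)`) and 100%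
of the `n ≤ N ^ θ` the rational points of `W_k` approximate all families of local points at a given finite set of primes (of
bounded height and not too close to the degenerate fibres), to a given precision and with the right sign of `t` at the real
place, for ALL integers `k` with `||k| - n y| ≤ w`. There is a similar statement for the integers near `α v_n`, for almost
every real `α`.

From Mathlib: `volume`: the Lebesgue measure; `ℚ_[p]`: the `p`-adic numbers. That the exceptional `k` have density zero is
from the starting files (`ShiftedWithBrauerClass`, with the definitions of `OnW`, `Given`, `Approximated`), as well as the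
count of the elements of arbitrary sets of integers in intervals at multiples of real numbers (`Pool.Agent.H438R2.DL`).
`NullAtMultiples` is defined in `Pool.Agent.Q319.WN.Null` and `NullAtDilates` in `Pool.Agent.Q319.WN.One`.
-/

set_option autoImplicit false

namespace Pool.Agent.Results.MP_83e36b_nt.ShiftsAtRealMultiples

open Finset Polynomial Filter Topology Pool.Agent.Q319.WN Pool.Agent.Results.MP_83e36b_nt.ShiftedWithBrauerClass

/-- Weak approximation at `T` of level `M` (and for the sign of `t` at the real place) fails for `W_k`. -/
def Fails (f : ℤ[X]) (a b : ℤ) (T : Finset Nat.Primes) (M : ℕ) (k : ℤ) : Prop :=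
  ¬ ∀ (t y z : (p : Nat.Primes) → ℚ_[(p : ℕ)]) (tr yr zr : ℝ),
      Given f a b T M k t y z tr yr zr → Approximated f a b T M k t y z tr

lemma fails_null (f : ℤ[X]) (hf : 1 ≤ f.natDegree) (a b : ℤ) (ha : a ≠ 0) (hb : b ≠ 0) (T : Finset Nat.Primes) (M : ℕ) :
    Null (Fails f a b T M) := by
  classical
  intro ε hε
  have h := ShiftedWithBrauerClass.result f hf a b ha hb T M
  rw [Metric.tendsto_atTop] at h
  obtain ⟨X₀, h1⟩ := h ε hε
  refine ⟨X₀ + 1, fun X hX => ?_⟩
  have h2 := h1 X (by omega)
  have hX0 : (0 : ℝ) < X := by exact_mod_cast (by omega : 0 < X)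
  rw [Real.dist_eq, sub_zero, abs_of_nonneg (by positivity), div_lt_iff₀ hX0] at h2
  refine le_trans ?_ h2.le
  rw [← Set.ncard_coe_finset]
  apply Nat.cast_le.2
  refine Set.ncard_le_ncard (fun k hk => ?_) (Finset.finite_toSet _)
  obtain ⟨h3, h4⟩ := hk
  rw [coe_filter]
  refine ⟨?_, h4⟩
  rw [mem_Icc]
  omega

/-- Let `f` be an integral polynomial of degree at least `1`, `a`, `b` nonzero integers, `T m` finite sets of primes,
`m = 0, 1, 2, …`.
1. (multiples) For all `m` and `0 < θ < 1` there is `c > 0` such that for all `ε > 0`, `w ≥ 0` and all large `N` the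
   following holds for all real `y` with `N ^ (1 - θ) ≤ y ≤ 2 N ^ (1 - θ)` outside a set of measure at most
   `N ^ (1 - θ - c)`: for all `n ≤ N ^ θ` with at most `ε N ^ θ` exceptions weak approximation at `T m` of level `m` holds
   for ALL the surfaces `W_k` with `||k| - n y| ≤ w`.
2. (dilates) For all real `v n → ∞` there are `K 0 < K 1 < ...` such that for almost every real `α`, all `m` and all `w`
   weak approximation at `T m` of level `m` holds for ALL the `W_k` with `|k - α v n| ≤ w`, for a proportion of the
   `n < K j` which tends to `1` as `j → ∞`. There are `g n` such that for all `v n ≥ g n` and almost every real `α`, for all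
   large `n`, it holds for all `m ≤ n` and ALL the `W_k` with `|k - α v n| ≤ n`. -/
theorem result (f : ℤ[X]) (hf : 1 ≤ f.natDegree) (a b : ℤ) (ha : a ≠ 0) (hb : b ≠ 0) (T : ℕ → Finset Nat.Primes) :
    (∀ m, NullAtMultiples (Fails f a b (T m) m)) ∧ NullAtDilates (fun m => Fails f a b (T m) m) :=
  null_both fun m => fails_null f hf a b ha hb (T m) m

end Pool.Agent.Results.MP_83e36b_nt.ShiftsAtRealMultiples
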