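import Pool.Agent.Results.MP_83e36b_nt.QuadraticTwists
import Pool.Agent.Q319.WN.Ratio

/-!
# Weak approximation for ALL quadratic twists of a double cover of `ℙⁿ × ℙ¹` near the multiples and the dilates of almost
every real number

Let `F = A(x) u² + B(x) u v + D(x) v²` with integral forms `A`, `B`, `D` in `n + 1` variables of degrees `2 α`, `α + δ`,
`2 δ` and squarefree discriminant `B² - 4 A D`; the varieties `X_a : w² = a F(x; u, v)` are rationally connected. Let
`Ω_0, Ω_1, …` be families of open sets of the coordinates `(x, (u, v))` over the real numbers and the `p`-adic fields, for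
instance a basis. For almost all real numbers `y` of size `N ^ (1 - θ)` (the exceptional set has a measure at most
`N ^ (1 - θ - c)`) and 100% of the `k ≤ N ^ θ`: ALL the varieties `X_a`, `a` squarefree, `||a| - k y| ≤ w`, which have points
in the open sets of `Ω_m` everywhere locally have a rational point with coordinates in all these sets. There is a similar
statement for the integers `a` near `α v_k`, for almost every real `α`; if `v_k` increases fast enough then it holds for ALL
squarefree `a` with `|a - α v_k| ≤ k` and ALL `Ω_m`, `m ≤ k`, at the same time.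

From Mathlib: `Squarefree`; `volume`: the Lebesgue measure; `ℚ_[p]`: the `p`-adic numbers. The statement for 100% of the
squarefree `a` is from the starting file `QuadraticTwists` (with the definitions of `OpenSets` and `HasPoint`), the count of
the elements of arbitrary sets of integers in intervals at multiples of real numbers is from the starting files, too
(`Pool.Agent.H438R2.DL`). `NullAtMultiples` is defined in `Pool.Agent.Q319.WN.Null` and `NullAtDilates` in
`Pool.Agent.Q319.WN.One`.
-/

set_option autoImplicit false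

namespace Pool.Agent.Results.MP_83e36b_nt.TwistsAtRealMultiples

open Filter Topology Pool.Agent.Q319.WN Pool.Agent.Results.MP_83e36b_nt.QuadraticTwists

/-- The coordinates of the rational point are in the real and in all the `p`-adic open sets. -/
def InAll {n : ℕ} (Ω : OpenSets n) (x : (Fin (n + 1) → ℚ) × (Fin 2 → ℚ)) : Prop :=
  ((fun i => (x.1 i : ℝ)), (fun i => (x.2 i : ℝ))) ∈ Ω.re ∧ ∀ p : Nat.Primes,
    ((fun i => (x.1 i : ℚ_[(p : ℕ)])), (fun i => (x.2 i : ℚ_[(p : ℕ)]))) ∈ Ω.pa p

/-- `a` is squarefree and the twist `X_a : w² = a F(x; u, v)` has points in the open sets of `Ω` over the real numbers and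
over all the `p`-adic fields, but no rational point with coordinates in all these open sets. -/
def Fails {n : ℕ} (A B D : MvPolynomial (Fin (n + 1)) ℤ) (Ω : OpenSets n) (a : ℤ) : Prop :=
  Squarefree a ∧ HasPoint A B D a Ω.re ∧ (∀ p : Nat.Primes, HasPoint A B D a (Ω.pa p)) ∧
    ¬ HasPoint A B D a {x : (Fin (n + 1) → ℚ) × (Fin 2 → ℚ) | InAll Ω x}

lemma cast_aeval {n : ℕ} (K : Type) [Field K] [CharZero K] (x : Fin (n + 1) → ℚ) (f : MvPolynomial (Fin (n + 1)) ℤ) :
    MvPolynomial.aeval (fun i => (x i : K)) f = ((MvPolynomial.aeval x f : ℚ) : K) := by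
  have h := MvPolynomial.aeval_algebraMap_apply (R := ℤ) (A := ℚ) K x f
  simpa [Function.comp_def] using h

lemma cast_point {n : ℕ} {A B D : MvPolynomial (Fin (n + 1)) ℤ} {a : ℤ} (K : Type) [Field K] [CharZero K]
    {S : Set ((Fin (n + 1) → ℚ) × (Fin 2 → ℚ))} {T : Set ((Fin (n + 1) → K) × (Fin 2 → K))}
    (hS : ∀ x ∈ S, ((fun i => (x.1 i : K)), (fun i => (x.2 i : K))) ∈ T)
    (h : HasPoint A B D a S) : HasPoint A B D a T := by
  obtain ⟨x, hx, w, hw, h1⟩ := h
  refine ⟨_, hS x hx, (w : K), by exact_mod_cast hw, ?_⟩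
  have h4 := congrArg (fun t : ℚ => (t : K)) h1
  simp only [cast_aeval]
  push_cast at h4 ⊢
  exact h4

lemma fails_null (n α δ : ℕ) (A B D : MvPolynomial (Fin (n + 1)) ℤ) (hA : A.IsHomogeneous (2 * α))
    (hB : B.IsHomogeneous (α + δ)) (hD : D.IsHomogeneous (2 * δ)) (hαδ : 1 ≤ α + δ)
    (hsq : Squarefree (MvPolynomial.map (Int.castRingHom ℚ) (B ^ 2 - 4 * A * D)))
    (Ω : OpenSets n) : Null (Fails A B D Ω) :=
  null_of_sets (locallySoluble A B D Ω) (globallySoluble A B D Ω) (fun _ _ ha => ha.1)
    (fun _ _ ha => ⟨ha.1, ha.2.1, cast_point ℝ (fun _ hx => hx.1) ha.2.2, fun p => cast_point _ (fun _ hx => hx.2 p) ha.2.2⟩)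
    (fun _ _ ha hP => ⟨⟨ha, hP.1, hP.2.1, hP.2.2.1⟩, fun h => hP.2.2.2 h.2.2⟩)
    (QuadraticTwists.result n α δ A B D hA hB hD hαδ hsq Ω).2

/-- Let `A`, `B`, `D` be integral forms in `n + 1` variables of degrees `2 α`, `α + δ`, `2 δ`, not both of `α`, `δ` zero, with
squarefree `B² - 4 A D`, and let `Ω 0, Ω 1, …` be families of open sets.
1. (multiples) For all `m` and `0 < θ < 1` there is `c > 0` such that for all `ε > 0`, `w ≥ 0` and all large `N` the
   following holds for all real `y` with `N ^ (1 - θ) ≤ y ≤ 2 N ^ (1 - θ)` outside a set of measure at most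
   `N ^ (1 - θ - c)`: for all `k ≤ N ^ θ` with at most `ε N ^ θ` exceptions `Fails A B D (Ω m) a` is wrong for ALL `a` with
   `||a| - k y| ≤ w`.
2. (dilates) For all real `v k → ∞` there are `K 0 < K 1 < ...` such that for almost every real `α`, all `m` and all `w`
   it is wrong for ALL `a` with `|a - α v k| ≤ w`, for a proportion of the `k < K j` which tends to `1` as `j → ∞`. There
   are `g k` such that for all `v k ≥ g k` and almost every real `α`, for all large `k`, it is wrong for all `m ≤ k` and
   ALL `a` with `|a - α v k| ≤ k`. -/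
theorem result (n α δ : ℕ) (A B D : MvPolynomial (Fin (n + 1)) ℤ) (hA : A.IsHomogeneous (2 * α))
    (hB : B.IsHomogeneous (α + δ)) (hD : D.IsHomogeneous (2 * δ)) (hαδ : 1 ≤ α + δ)
    (hsq : Squarefree (MvPolynomial.map (Int.castRingHom ℚ) (B ^ 2 - 4 * A * D)))
    (Ω : ℕ → OpenSets n) :
    (∀ m, NullAtMultiples (Fails A B D (Ω m))) ∧ NullAtDilates (fun m => Fails A B D (Ω m)) :=
  null_both fun m => fails_null n α δ A B D hA hB hD hαδ hsq (Ω m)

end Pool.Agent.Results.MP_83e36b_nt.TwistsAtRealMultiples
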